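import Pool.Agent.W734.STS.Stms

/-! Project STS (owner helper734), part WD. -/

set_option autoImplicit false

namespace Pool.Agent.W418.STS.Wd

open Pool.Agent.W734.STS

theorem flat (j : ℕ) (L : List Blk) :
    ((step j L).map (wd (j + 1))).flatten = (L.map (wd j)).flatten := by
  fun_induction step j L with
  | case1 => rfl
  | case2 t ih =>
    simp only [List.map_cons, List.flatten_cons, ih]
    change (S (j + 1) ++ S j) ++ _ = S (j + 1) ++ (S j ++ _)
    rw [List.append_assoc]
  | case3 t ht ih =>
    simp only [List.map_cons, List.flatten_cons, ih]
    rfl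
  | case4 t ih =>
    simp only [List.map_cons, List.flatten_cons, ih]
    rfl
  | case5 k t ih =>
    simp only [List.map_cons, List.flatten_cons, ih]
    rfl
  | case6 t ih =>
    simp only [List.map_cons, List.flatten_cons, ih]
    rfl

theorem flatP (u : List (Fin 2)) (j : ℕ) : ((P u j).map (wd j)).flatten = u := by
  induction j with
  | zero =>
    change ((ini u).map (wd 0)).flatten = u
    unfold ini
    simp only [List.map_cons, List.map_append, List.map_map, List.flatten_cons,
      List.flatten_append, List.map_nil, List.flatten_nil]
    have h : ((u.map (wd 0 ∘ fun x => if x = 1 then Blk.A else Blk.B)).flatten) = u := by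
      induction u with
      | nil => rfl
      | cons x t ih =>
        simp only [List.map_cons, List.flatten_cons, ih, Function.comp]
        have hx : x = 0 ∨ x = 1 := by
          revert x; decide
        rcases hx with rfl | rfl
        · simp [wd, S]
        · simp [wd, S]
    rw [h]
    simp [wd]
  | succ j ih =>
    change ((step j (P u j)).map (wd (j + 1))).flatten = u
    rw [flat, ih]

theorem lenS : ∀ n : ℕ, (S n).length = Nat.fib (n + 1)
  | 0 => rfl
  | 1 => rfl
  | (n + 2) => by
    rw [S, List.length_append, lenS (n + 1), lenS n, Nat.fib_add_two (n := n + 1)]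
    omega

theorem len_le {u : List (Fin 2)} {j : ℕ} {b : Blk} (hb : b ∈ P u j) :
    (wd j b).length ≤ u.length := by
  have h := flatP u j
  have h2 : (wd j b).length ≤ (((P u j).map (wd j)).flatten).length := by
    rw [List.length_flatten]
    refine List.single_le_sum (fun _ _ => Nat.zero_le _) _ ?_
    rw [List.mem_map]
    exact ⟨wd j b, List.mem_map.2 ⟨b, hb, rfl⟩, rfl⟩
  rwa [h] at h2

theorem stepE (j : ℕ) (M : List Blk) : step j (M ++ [Blk.E]) = step j M ++ [Blk.E] := by
  fun_induction step j M with
  | case1 => rfl
  | case2 t ih =>
    simp only [List.cons_append]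
    rw [step, ih]
  | case3 t ht ih =>
    simp only [List.cons_append]
    rw [step, ih]
    intro t' h'
    cases t with
    | nil => simp at h'
    | cons a t =>
      simp only [List.cons_append, List.cons.injEq] at h'
      exact ht t (by rw [h'.1])
  | case4 t ih =>
    simp only [List.cons_append]
    rw [step, ih]
  | case5 k t ih =>
    simp only [List.cons_append]
    rw [step, ih]
  | case6 t ih =>
    simp only [List.cons_append]
    rw [step, ih]

theorem wdp : S_WD := by
  refine ⟨flat, flatP, ?_, lenS, ?_⟩
  · intro u j hu
    constructor
    · intro h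
      have h1 := len_le h
      change (S (j + 1)).length ≤ _ at h1
      rw [lenS] at h1
      have h2 : Nat.fib (j + 1) ≤ Nat.fib (j + 1 + 1) := Nat.fib_le_fib_succ
      omega
    · intro h
      have h1 := len_le h
      change (S j).length ≤ _ at h1
      rw [lenS] at h1
      omega
  · intro u j
    induction j with
    | zero => exact ⟨_, rfl⟩
    | succ j ih =>
      obtain ⟨M, hM⟩ := ih
      refine ⟨step j M, ?_⟩
      change step j (P u j) = _
      rw [hM, step, stepE]

end Pool.Agent.W418.STS.Wd
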